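import Pool.Agent.Helper87.PG.Stmts
import Pool.Agent.Helper28.TC.GENP

/-!
Module GENP of `MP_39dd1a_ag` (hand-in `FiniteModels`): general points of the vector space, if the
model variety is a finite set of points.
-/

set_option autoImplicit false

namespace Pool.Agent.Helper87.PG

open MvPolynomial Pool.Agent.Helper48.VMRT Pool.Agent.Helper87.VM Pool.Agent.Helper87.TC

theorem genp_rel {w : ℕ} {ι : Type} [Finite ι] (Zi : ι → Set (Fin w → ℂ)) (z : ι → Fin w → ℂ)
    (hz : ∀ i, Zi i = ln (z i)) : Rel 1 (⋃ i, Zi i) := by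
  classical
  cases nonempty_fintype ι
  intro e _
  have h1 : ∀ i, ∃ p : MvPolynomial (Fin (1 + 1)) ℂ, p ≠ 0 ∧
      ∀ a : ℂ, eval (fun j => (a • z i) (e j)) p = 0 := by
    intro i
    by_cases h0 : z i (e 0) = 0 ∧ z i (e 1) = 0
    · refine ⟨X 0, ?_, ?_⟩
      · intro h
        have := congrArg (eval (fun _ => (1 : ℂ))) h
        simp at this
      · intro a
        rw [eval_X, Pi.smul_apply, h0.1, smul_zero]
    · refine ⟨C (z i (e 1)) * X 0 - C (z i (e 0)) * X 1, ?_, ?_⟩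
      · intro h
        apply h0
        have e1 := congrArg (eval (fun j : Fin (1 + 1) => if j = 0 then (1 : ℂ) else 0)) h
        have e2 := congrArg (eval (fun j : Fin (1 + 1) => if j = 0 then (0 : ℂ) else 1)) h
        simp at e1 e2
        exact ⟨e2, e1⟩
      · intro a
        simp only [map_sub, map_mul, eval_C, eval_X, Pi.smul_apply, smul_eq_mul]
        ring
  choose p hp0 hp using h1
  refine ⟨∏ i, p i, Finset.prod_ne_zero_iff.2 fun i _ => hp0 i, ?_⟩
  intro x hx
  obtain ⟨i, hi⟩ := Set.mem_iUnion.1 hx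
  rw [hz i] at hi
  obtain ⟨a, rfl⟩ := hi
  rw [map_prod]
  exact Finset.prod_eq_zero (Finset.mem_univ i) (hp i a)

theorem genp_span_le {w : ℕ} (z : Fin w → ℂ) :
    Module.finrank ℂ (Submodule.span ℂ {z}) ≤ 1 := by
  by_cases hz : z = 0
  · rw [hz, Submodule.span_zero_singleton, finrank_bot]
    exact Nat.zero_le _
  · rw [finrank_span_singleton hz]

theorem genp_sup_ne {w : ℕ} (K : Submodule ℂ (Fin w → ℂ)) (z : Fin w → ℂ)
    (h : Module.finrank ℂ K + 2 ≤ w) : K ⊔ Submodule.span ℂ {z} ≠ ⊤ := by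
  intro htop
  have h1 : Module.finrank ℂ (K ⊔ Submodule.span ℂ {z} : Submodule ℂ (Fin w → ℂ)) ≤
      Module.finrank ℂ K + Module.finrank ℂ (Submodule.span ℂ {z}) :=
    Submodule.finrank_add_le_finrank_add_finrank _ _
  have h2 : Module.finrank ℂ (Submodule.span ℂ {z}) ≤ 1 := genp_span_le z
  rw [htop, finrank_top, Module.finrank_fin_fun] at h1
  omega

theorem genp_comap_ne {w : ℕ} (L : (Fin w → ℂ) →ₗ[ℂ] (Fin w → ℂ)) (z : Fin w → ℂ)
    (h : Module.finrank ℂ (LinearMap.ker L) + 2 ≤ w) :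
    (Submodule.span ℂ {z}).comap L ≠ ⊤ := by
  intro htop
  have h1 : LinearMap.range L ≤ Submodule.span ℂ {z} := by
    rintro _ ⟨x, rfl⟩
    have : x ∈ (Submodule.span ℂ {z}).comap L := by rw [htop]; exact Submodule.mem_top
    exact this
  have h2 := Submodule.finrank_mono h1
  have h3 : Module.finrank ℂ (Submodule.span ℂ {z}) ≤ 1 := genp_span_le z
  have h4 := LinearMap.finrank_range_add_finrank_ker L
  rw [Module.finrank_fin_fun] at h4
  omega

theorem st_GENP (hDIMT : TC.ST_DIMT) : ST_GENP := by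
  classical
  intro D m htd hpt hfix
  have hgood := htd.good
  have hfin : Finite D.ι := htd.fin
  have hfd := hgood.fd
  choose z hz0 hz using hpt
  obtain ⟨i₀⟩ := hgood.ine
  -- an element different from the identity
  obtain ⟨h₀, hh₀⟩ : ∃ h : D.G, h ≠ 1 := by
    have h1 : 1 < Nat.card D.G := by
      rw [htd.card]
      exact Nat.one_lt_two_pow (by have := htd.pos; omega)
    have : Nontrivial D.G := (Finite.one_lt_card_iff_nontrivial).1 h1
    exact exists_ne 1
  have hw : 2 ≤ D.w := by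
    have := hfix h₀ hh₀
    omega
  -- the tangent spaces
  have hrel : Rel 1 D.Z := genp_rel D.Zi z hz
  have hTT : ∀ i, ∀ x ∈ D.Zi i, x ≠ 0 → TT D.F x ≤ Submodule.span ℂ {z i} := by
    intro i x hx hx0
    have hxZ : x ∈ D.Z := Set.mem_iUnion.2 ⟨i, hx⟩
    have h1 := hDIMT D.G D.ν D.w D.Z D.ρ D.a D.F D.ρν 1 hfd hrel x hxZ hx0
    have h2 : Submodule.span ℂ {x} ≤ TT D.F x := by
      rw [Submodule.span_singleton_le_iff_mem]
      exact genp_self hfd hxZ
    have h3 : Submodule.span ℂ {x} = TT D.F x := by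
      apply Submodule.eq_of_le_of_finrank_le h2
      rw [finrank_span_singleton hx0]
      exact h1
    rw [← h3, Submodule.span_singleton_le_iff_mem]
    rw [hz i] at hx
    obtain ⟨a, rfl⟩ := hx
    exact Submodule.smul_mem _ _ (Submodule.mem_span_singleton_self _)
  -- the subspaces
  let L : D.G → ((Fin D.w → ℂ) →ₗ[ℂ] (Fin D.w → ℂ)) := fun h => D.ρ h - LinearMap.id
  let S : D.G → D.ι → Bool → Submodule ℂ (Fin D.w → ℂ) := fun h i b =>
    if h = 1 then ⊥ else
      if b then LinearMap.ker (L h) ⊔ Submodule.span ℂ {z i} else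
        (Submodule.span ℂ {z i}).comap (L h)
  have hSne : ∀ h i b, S h i b ≠ ⊤ := by
    intro h i b
    simp only [S]
    split_ifs with h1 h2
    · intro hbt
      have h3 : Module.finrank ℂ (⊥ : Submodule ℂ (Fin D.w → ℂ)) = D.w := by
        rw [hbt, finrank_top, Module.finrank_fin_fun]
      rw [finrank_bot] at h3
      omega
    · exact genp_sup_ne _ _ (hfix h h1)
    · exact genp_comap_ne _ _ (hfix h h1)
  let A' : D.G × D.G × D.ι × Bool → Set (Fin D.w → ℂ) := fun p =>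
    ((S p.2.1 p.2.2.1 p.2.2.2).comap (D.ρ p.1) : Set (Fin D.w → ℂ))
  have hA'closed : ∀ p, ZClosed (A' p) := fun p => zclosed_submodule _
  have hmemA' : ∀ p u, u ∈ A' p ↔ D.ρ p.1 u ∈ S p.2.1 p.2.2.1 p.2.2.2 := fun p u => Iff.rfl
  refine ⟨⋃ p, A' p, zclosed_iUnion hA'closed, ?_, ?_, ?_, ?_⟩
  · intro a u hu
    obtain ⟨p, hp⟩ := Set.mem_iUnion.1 hu
    refine Set.mem_iUnion.2 ⟨p, ?_⟩
    rw [hmemA'] at hp ⊢
    rw [map_smul]
    exact Submodule.smul_mem _ a hp
  · intro g u hu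
    obtain ⟨p, hp⟩ := Set.mem_iUnion.1 hu
    refine Set.mem_iUnion.2 ⟨(p.1 * g⁻¹, p.2), ?_⟩
    rw [hmemA'] at hp ⊢
    change D.ρ (p.1 * g⁻¹) (D.ρ g u) ∈ _
    rw [map_mul]
    change D.ρ p.1 (D.ρ g⁻¹ (D.ρ g u)) ∈ _
    rw [genp_inv_rho]
    exact hp
  · obtain ⟨u, hu⟩ := genp_proper hA'closed (by
      intro p
      obtain ⟨u, hu⟩ : ∃ u, u ∉ S p.2.1 p.2.2.1 p.2.2.2 := by
        by_contra hcon
        push Not at hcon
        exact hSne _ _ _ (eq_top_iff.2 fun x _ => hcon x)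
      refine ⟨D.ρ p.1⁻¹ u, ?_⟩
      rw [hmemA', genp_rho_inv]
      exact hu)
    refine ⟨u, fun hh => ?_⟩
    obtain ⟨p, hp⟩ := Set.mem_iUnion.1 hh
    exact hu p hp
  · intro u hu
    have hu1 : ∀ h : D.G, h ≠ 1 → ∀ i, u ∉ LinearMap.ker (L h) ⊔ Submodule.span ℂ {z i} := by
      intro h h1 i hcon
      apply hu
      refine Set.mem_iUnion.2 ⟨(1, h, i, true), ?_⟩
      rw [hmemA', map_one]
      change u ∈ S h i true
      simp only [S, if_neg h1, if_true]
      exact hcon
    have hu2 : ∀ h : D.G, h ≠ 1 → ∀ i, L h u ∉ Submodule.span ℂ {z i} := by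
      intro h h1 i hcon
      apply hu
      refine Set.mem_iUnion.2 ⟨(1, h, i, false), ?_⟩
      rw [hmemA', map_one]
      change u ∈ S h i false
      simp only [S, if_neg h1]
      exact hcon
    refine ⟨⟨?_, ?_, ?_⟩, ?_⟩
    · intro x hx hx0 hcon
      obtain ⟨i, hi⟩ := Set.mem_iUnion.1 hx
      exact hu1 h₀ hh₀ i (Submodule.mem_sup_right (hTT i x hi hx0 hcon))
    · intro τ hτ _ x hx hcon
      obtain ⟨i, hi⟩ := Set.mem_iUnion.1 hx
      rw [hz i] at hi
      obtain ⟨a, rfl⟩ := hi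
      apply hu1 τ hτ i
      have h1 : u + a • z i ∈ LinearMap.ker (L τ) := by
        rw [LinearMap.mem_ker]
        change D.ρ τ (u + a • z i) - (u + a • z i) = 0
        rw [hcon, sub_self]
      have h2 : u = (u + a • z i) + (-a) • z i := by
        rw [neg_smul, add_assoc, add_neg_cancel, add_zero]
      rw [h2]
      exact Submodule.add_mem_sup h1
        (Submodule.smul_mem _ _ (Submodule.mem_span_singleton_self _))
    · intro τ hτ _ x hx hx0 _ hcon
      obtain ⟨i, hi⟩ := Set.mem_iUnion.1 hx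
      exact hu2 τ hτ i (hTT i x hi hx0 hcon)
    · intro h h1 hcon
      obtain ⟨i, hi⟩ := Set.mem_iUnion.1 hcon
      rw [hz i] at hi
      obtain ⟨a, ha⟩ := hi
      apply hu2 h h1 i
      change D.ρ h u - u ∈ _
      rw [ha]
      exact Submodule.smul_mem _ _ (Submodule.mem_span_singleton_self _)

end Pool.Agent.Helper87.PG
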