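import Pool.Agent.Helper87.PG.Stmts
import Pool.Agent.Helper87.TC.HTR2

/-!
Module HTR2 of `MP_39dd1a_ag` (hand-in `FiniteModels`): the group acts on the data of a member of
the family.
-/

set_option autoImplicit false

namespace Pool.Agent.Helper87.PG

open MvPolynomial Pool.Agent.Helper48.VMRT Pool.Agent.Helper87.VM Pool.Agent.Helper87.TC

theorem st_HTR2 (hHTR0 : TC.ST_HTR0) : ST_HTR2 := by
  intro D m N E X DX hTR h p q hp
  have hD := hTR.td.good
  obtain ⟨ε, hε, hE'⟩ := hTR.res.equi h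
  have hE : ∀ y, ev E (D.ρY h y) = ε • ev E y := hE'
  have ha : D.a * 4 ^ m ≠ 0 := by
    refine Nat.mul_ne_zero ?_ (pow_ne_zero _ (by norm_num))
    have := hD.fd.two_le
    omega
  obtain ⟨lam, hlam⟩ := IsAlgClosed.exists_pow_nat_eq (ε⁻¹) (Nat.pos_of_ne_zero ha)
  have hlam0 : lam ≠ 0 := by
    rintro rfl
    rw [zero_pow ha] at hlam
    exact inv_ne_zero hε hlam.symm
  refine ⟨lam, hlam0, htr2_lp hD ((hHTR0 D hD h).2 p q hp) hlam0, ?_⟩
  intro c hc s t
  have h1 : s • (lam • oext D.ρ h p) + t • (lam • oext D.ρ h q) =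
      lam • oext D.ρ h (s • p + t • q) := by
    rw [map_add, map_smul, map_smul, smul_add, smul_comm s lam, smul_comm t lam]
  have h2 : s * (lam • oext D.ρ h p) none + t * (lam • oext D.ρ h q) none =
      lam * (s * p none + t * q none) := by
    simp only [Pi.smul_apply, smul_eq_mul, oext_none]
    ring
  rw [h1, h2, VD.gr_smul D hD.fd.hom, (hHTR0 D hD h).1, htr2_smul hTR.res.hom, hE,
    mul_pow, mul_smul, hc, smul_smul]
  congr 1
  have h3 : (lam ^ (D.a + 1)) ^ 4 ^ m = lam ^ (D.a * 4 ^ m) * lam ^ 4 ^ m := by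
    rw [← pow_mul, ← pow_add]
    congr 1
    ring
  rw [h3, hlam]
  field_simp

end Pool.Agent.Helper87.PG
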