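import Pool.Agent.Helper87.PG.Stmts
import Pool.Agent.Helper87.TC.MAIN2

/-!
Assembly of the existence theorem for an arbitrary group of order a power of `2`
(`MP_39dd1a_ag`, hand-in `FiniteModels`).
-/

set_option autoImplicit false

namespace Pool.Agent.Helper87.PG

open MvPolynomial Pool.Agent.Helper48.VMRT Pool.Agent.Helper87.VM Pool.Agent.Helper87.TC

theorem st_MAIN2 (hTREX : ST_TREX) (hHCUR2 : ST_HCUR2) (hHIRR2 : ST_HIRR2)
    (hHLC2 : ST_HLC2) (hTHR2 : ST_THR2) (hAX : ST_AX) (hUNI2 : ST_UNI2) (hISO2 : ST_ISO2) :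
    ST_MAIN2 := by
  intro D m hTD hex
  obtain ⟨A, hAcl, hAcone, hAact, ⟨u₀, hu₀⟩, hA⟩ := hex
  obtain ⟨N, E, X, DX, hTR⟩ := hTREX D m hTD
  obtain ⟨A', hA'cl, hA'ex, hA'⟩ := hAX D m N E X DX hTR A hAcl hAcone hAact ⟨u₀, hu₀⟩
  have hD := hTD.good
  obtain ⟨z₁, hz₁, hz₁0⟩ : ∃ z ∈ D.Z, z ≠ 0 := by
    obtain ⟨i⟩ := hD.ine
    obtain ⟨z, hz, hz0⟩ := hD.Zne i
    exact ⟨z, Set.mem_iUnion.2 ⟨i, hz⟩, hz0⟩
  have hne : ∀ u, u ∉ A → u ≠ 0 := by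
    intro u hu h0
    refine (hA u hu).gl.tan z₁ hz₁ hz₁0 ?_
    rw [h0]
    exact Submodule.zero_mem _
  have hNF : ∀ u, u ∉ A → NF D u := by
    intro u hu τ hτ hτ2 h0
    have h0Z : (0 : Fin D.w → ℂ) ∈ D.Z := by
      obtain ⟨i, hi⟩ := Set.mem_iUnion.1 hz₁
      refine Set.mem_iUnion.2 ⟨i, ?_⟩
      have h2 := hD.Zcone i 0 z₁ hi
      rwa [zero_smul] at h2
    have h1 := (hA u hu).gl.aff τ hτ hτ2 0 h0Z
    rw [add_zero] at h1
    exact h1 h0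
  refine ⟨N, 4 ^ m * D.a, X, H2 D m N E DX, ?_, ?_, ?_, A', hA'cl, hA'ex, ?_⟩
  · exact
      { closed := hTR.res.pm.closed
        cone := hTR.res.pm.cone
        irred := hTR.res.pm.irred
        exists_ne := hTR.res.pm.exists_ne
        smooth := hTR.res.pm.smooth }
  · exact
      { curve := hHCUR2 D m N E X DX hTR
        irred := hHIRR2 D m N E X DX hTR ⟨u₀, (hA u₀ hu₀).gl⟩
        locallyClosed := (hHLC2 D m N E X DX hTR).1 }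
  · refine ⟨(hHLC2 D m N E X DX hTR).2, A', hA'cl, hA'ex, ?_⟩
    intro v hv hv0 hvA
    obtain ⟨c₀, u, hc₀, hu, rfl⟩ := hA' v hv hv0 hvA
    have hG := hA u hu
    obtain ⟨Φ, hΦ⟩ := hTHR2 D m N E X DX hTR u hG.gl c₀ hc₀
    refine ⟨D.w, D.Z, Φ, hD.ZZcl, ?_, ⟨z₁, hz₁, hz₁0⟩, ?_, ?_⟩
    · intro a z hz
      obtain ⟨i, hi⟩ := Set.mem_iUnion.1 hz
      exact Set.mem_iUnion.2 ⟨i, hD.Zcone i a z hi⟩
    · intro z hz hz0
      exact ⟨(hΦ z hz).2.2.2 hz0, (hΦ z hz).2.1, (hΦ z hz).2.2.1⟩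
    · intro c hc s₀ t₀ hst hct
      obtain ⟨z, hz, hz0, α, β, γ, δ, hdet, h1, h2, h3⟩ :=
        hUNI2 D m N E X DX hTR u c₀ hc₀ (hne u hu) (hNF u hu) c hc s₀ t₀ hst hct
      refine ⟨z, hz, hz0, α, β, γ, δ, hdet, ?_⟩
      have hαβ : α ≠ 0 ∨ β ≠ 0 := by
        by_contra hcon
        push Not at hcon
        rw [hcon.1, hcon.2] at h1
        norm_num at h1
      refine main2_ext c _ α β γ δ hαβ ?_
      intro s t hl
      have h4 := h3 s t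
      rw [← (hΦ z hz).1] at h4
      have h5 : (α * s + β * t) ^ 4 ^ m ≠ 0 := pow_ne_zero _ hl
      exact smul_right_injective _ h5 h4
  · intro v hv hv0 hvA
    obtain ⟨c₀, u, hc₀, hu, rfl⟩ := hA' v hv hv0 hvA
    exact hISO2 D m N E X DX hTR u (hA u hu) c₀ hc₀

end Pool.Agent.Helper87.PG
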