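import Pool.Agent.Helper87.PG.Stmts
import Pool.Agent.Helper48.VMRT.Generic
import Pool.Agent.Helper87.VM.BS.Fin

/-!
Conversions for the final statement of `MP_39dd1a_ag` (hand-in `FiniteModels`).
-/

set_option autoImplicit false

namespace Pool.Agent.Helper87.PG

open MvPolynomial Pool.Agent.Helper48.VMRT Pool.Agent.Helper87.VM Pool.Agent.Helper87.TC

variable {n : ℕ} {ι : Type}

theorem nec_union (z : ι → Fin n → ℂ) :
    (⋃ i, ln (z i)) = {x | ∃ (i : ι) (a : ℂ), x = a • z i} := by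
  ext x
  rw [Set.mem_iUnion]
  exact Iff.rfl

theorem nec_image (f : (Fin n → ℂ) ≃ₗ[ℂ] (Fin n → ℂ)) {x y : Fin n → ℂ} (hx : x ≠ 0) {a : ℂ}
    (h : f x = a • y) : f '' ln x = ln y := by
  have ha : a ≠ 0 := by
    rintro rfl
    rw [zero_smul] at h
    exact hx (f.map_eq_zero_iff.1 h)
  refine Set.Subset.antisymm ?_ ?_
  · rintro _ ⟨_, ⟨b, rfl⟩, rfl⟩
    exact ⟨b * a, by rw [map_smul, h, smul_smul]⟩
  · rintro _ ⟨b, rfl⟩
    exact ⟨(b * a⁻¹) • x, ⟨_, rfl⟩, by rw [map_smul, h, smul_smul, inv_mul_cancel_right₀ ha]⟩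

/-- From permutations of the points to automorphisms of the set. -/
theorem nec_auto (z : ι → Fin n → ℂ) (hz : ∀ i, z i ≠ 0)
    (h : ∀ i j, ∃ (f : (Fin n → ℂ) ≃ₗ[ℂ] (Fin n → ℂ)) (σ : Equiv.Perm ι), σ i = j ∧
      ∀ l, ∃ a : ℂ, f (z l) = a • z (σ l)) (i j : ι) :
    ∃ a : (Fin n → ℂ) ≃ₗ[ℂ] (Fin n → ℂ),
      a '' (⋃ i, ln (z i)) = (⋃ i, ln (z i)) ∧ a '' ln (z i) = ln (z j) := by
  obtain ⟨f, σ, hσ, hf⟩ := h i j
  have h1 : ∀ l, f '' ln (z l) = ln (z (σ l)) := by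
    intro l
    obtain ⟨a, ha⟩ := hf l
    exact nec_image f (hz l) ha
  refine ⟨f, ?_, by rw [h1, hσ]⟩
  rw [Set.image_iUnion]
  refine Set.Subset.antisymm ?_ ?_
  · refine Set.iUnion_subset fun l => ?_
    rw [h1]
    exact Set.subset_iUnion (fun i => ln (z i)) _
  · refine Set.iUnion_subset fun l => ?_
    have h2 := h1 (σ.symm l)
    rw [Equiv.apply_symm_apply] at h2
    rw [← h2]
    exact Set.subset_iUnion (fun i => f '' ln (z i)) _

/-- From automorphisms of the set to permutations of the points. -/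
theorem nec_perm [Finite ι] (z : ι → Fin n → ℂ) (hz : Pts z)
    (hC : IsComponents (fun i => ln (z i))) (i j : ι)
    (h : ∃ a : (Fin n → ℂ) ≃ₗ[ℂ] (Fin n → ℂ),
      a '' (⋃ i, ln (z i)) = (⋃ i, ln (z i)) ∧ a '' ln (z i) = ln (z j)) :
    ∃ (f : (Fin n → ℂ) ≃ₗ[ℂ] (Fin n → ℂ)) (σ : Equiv.Perm ι), σ i = j ∧
      ∀ l, ∃ a : ℂ, f (z l) = a • z (σ l) := by
  obtain ⟨f, hf, hij⟩ := h
  obtain ⟨σ, hσ⟩ := bs_perm (fun i => ln (z i)) hC f hf
  refine ⟨f, σ, ?_, ?_⟩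
  · have h1 := hσ i
    rw [hij] at h1
    exact (hC.irredundant _ _ h1.le).symm
  · intro l
    have h1 : f (z l) ∈ f '' ln (z l) := ⟨z l, ⟨1, (one_smul ℂ _).symm⟩, rfl⟩
    rw [hσ l] at h1
    exact h1

end Pool.Agent.Helper87.PG
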