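import Pool.Agent.Helper87.PG.Stmts

/-!
Module TREX of `MP_39dd1a_ag` (hand-in `FiniteModels`): the resolved quotient of the blow-up.
-/

set_option autoImplicit false

namespace Pool.Agent.Helper87.PG

open MvPolynomial Pool.Agent.Helper48.VMRT Pool.Agent.Helper87.VM Pool.Agent.Helper87.TC

theorem st_TREX (hTOWER : ST_TOWER) (hINP0 : ST_INP0) : ST_TREX := by
  intro D m hTD
  obtain ⟨N, E, X, DX, hR⟩ := hTOWER m _ _ D.w D.Y (FX D) (fun g : D.G => D.ρY g) hTD.card
    (hINP0 D m hTD)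
  exact ⟨N, E, X, DX, hTD, hR⟩

end Pool.Agent.Helper87.PG
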