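import Pool.Agent.Helper87.TC.All
import Pool.Agent.Helper87.PG.NEC
import Pool.Agent.Helper88.PG.EQG
import Pool.Agent.Helper52.PG.STEP
import Pool.Agent.Helper84.PG.RCOMP
import Pool.Agent.Helper49.PG.TOWER
import Pool.Agent.Helper33.PG.INP0
import Pool.Agent.Helper87.PG.TREX
import Pool.Agent.Helper80.PG.LINE
import Pool.Agent.Helper87.PG.GENP
import Pool.Agent.Helper87.PG.MEM2
import Pool.Agent.Helper87.PG.HTR2
import Pool.Agent.Helper25.PG.HCUR2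
import Pool.Agent.Helper74.PG.THR2
import Pool.Agent.Helper74.PG.HIRR2
import Pool.Agent.Helper13.PG.CURV2
import Pool.Agent.Helper33.PG.HLC2
import Pool.Agent.Helper68.PG.AX
import Pool.Agent.Helper72.PG.UNI2
import Pool.Agent.Helper43.PG.SM2
import Pool.Agent.Helper33.PG.VT2
import Pool.Agent.Helper50.PG.VTS2
import Pool.Agent.Helper33.PG.ISO2
import Pool.Agent.Helper87.PG.MAIN2
import Pool.Agent.Helper92.PG.LCO
import Pool.Agent.Helper63.PG.LSM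
import Pool.Agent.Helper68.PG.SYL1
import Pool.Agent.Helper80.PG.FIXD
import Pool.Agent.Helper61.PG.SYL2
import Pool.Agent.Helper80.PG.FINALG

/-!
The complete existence theorem on isotrivial VMRT for a model variety of `2 ^ k` points
(`MP_39dd1a_ag`, hand-in `FiniteModels`).
-/

set_option autoImplicit false

namespace Pool.Agent.Helper87.PG

open MvPolynomial Pool.Agent.Helper48.VMRT Pool.Agent.Helper87.VM Pool.Agent.Helper87.TC

theorem all_TOWER : ST_TOWER := by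
  have hPTS := TC.st_PTS TC.st_CHART TC.st_FQ TC.st_BC TC.st_PURE TC.st_SEPP
  have hTANI := TC.st_TANI TC.st_CHART TC.st_FQ TC.st_BC TC.st_PURE
  have hUPB := TC.st_UPB TC.st_CHART TC.st_FQ TC.st_BC TC.st_PURE TC.st_TPM
  have hUPA := TC.st_UPA hUPB TC.st_TRANS
  have hPSIPM := TC.st_PSIPM TC.st_SEPP hPTS hTANI hUPB hUPA VM.st_LB
  have hCLIFT := TC.st_CLIFT hPTS TC.st_PRIM VM.st_FAC1 VM.st_FAC2
  exact st_TOWER (st_STEP TC.st_ADAPT TC.st_TRANS TC.st_SEPP hPTS hTANI hPSIPM hCLIFT st_EQG)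
    st_RCOMP TC.st_TRANS

theorem all_MAIN2 : ST_MAIN2 := by
  have hTREX := st_TREX all_TOWER (st_INP0 TC.st_HTR0)
  have hMEM2 := st_MEM2 TC.st_MEM0
  have hHTR2 := st_HTR2 TC.st_HTR0
  have hLINE := st_LINE TC.st_HTR0
  have hRESD := TC.st_RESD TC.st_COMPE VM.st_RES
  have hTHR2 := st_THR2 TC.st_MEM0 TC.st_PAR0 TC.st_COMPE hLINE
  have hHIRR2 := st_HIRR2 hHTR2 hMEM2 hTHR2 TC.st_PAR0 TC.st_COMPE hRESD VM.st_PROD
  have hCURV2 := st_CURV2 (VM.st_YC VM.st_FAC1) VM.st_FAC1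
  have hHLC2 := st_HLC2 hCURV2 hMEM2 hRESD
  have hUNI2 := st_UNI2 hMEM2 hHTR2 TC.st_HTR0
  have hSM2 := st_SM2 TC.st_MEM0 hLINE st_VTS2
  have hVT2 := st_VT2 hUNI2 hSM2 hTHR2
  exact st_MAIN2 hTREX (st_HCUR2 hMEM2 TC.st_HTR0) hHIRR2 hHLC2 hTHR2 st_AX hUNI2
    (st_ISO2 TC.st_HTR0 hVT2 st_VTS2)

theorem all_FINALG : ST_FINALG := by
  have hTP := VM.st_TP VM.all_QUO
  have hXEX := VM.st_XEX (VM.st_SEG VM.st_PROD) hTP VM.all_QUO
  have hCIRR := VM.st_CIRR (VM.st_GAL (VM.st_GALA VM.st_HEN))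
  have hCEX := VM.st_CEX hCIRR (VM.st_CUP VM.st_CDIST) (VM.st_CLO VM.st_HEN hCIRR VM.st_LB)
    (VM.st_CFREE VM.st_CDIST)
  have hYIR := VM.st_YIR VM.st_YFIB
  have hYPM := VM.st_YPM VM.st_YCL hYIR VM.st_YUP (VM.st_YLO hYIR VM.st_LB)
  exact st_FINALG Pool.Agent.Helper92.PG.st_LCO st_LSM
    (st_SYL2 Pool.Agent.Helper92.PG.st_LCO st_SYL1) st_FIXD (st_GENP TC.st_DIMT) all_MAIN2
    hCEX (VM.st_FDEX VM.st_FLOC) hYPM VM.st_YACT hXEX

end Pool.Agent.Helper87.PG
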