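import Pool.Agent.Helper87.PG.Stmts

/-!
Statements for model varieties of positive dimension (`MP_39dd1a_ag`, hand-in `TwoGroups`).
-/

set_option autoImplicit false

namespace Pool.Agent.Helper87.PG

open MvPolynomial Pool.Agent.Helper48.VMRT Pool.Agent.Helper87.VM Pool.Agent.Helper87.TC

/-- The dimension of the cone `Z` is at most `r`: any `r + 1` linear forms are algebraically
dependent on `Z`. -/
def DimLE {n : ℕ} (r : ℕ) (Z : Set (Fin n → ℂ)) : Prop :=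
  ∀ L : Fin (r + 1) → ((Fin n → ℂ) →ₗ[ℂ] ℂ),
    ∃ P : MvPolynomial (Fin (r + 1)) ℂ, P ≠ 0 ∧ ∀ z ∈ Z, eval (fun i => L i z) P = 0

/-- A general vector is in no space of a family of subspaces. -/
def ST_TANDG : Prop :=
  ∀ (w m m' r : ℕ) (ν : Type) [Fintype ν] (Z : Set (Fin w → ℂ))
    (A : ν → Fin w → MvPolynomial (Fin w) ℂ), 1 ≤ w → m + m' ≤ w →
    (∀ a : ℂ, ∀ z ∈ Z, a • z ∈ Z) → Rel m Z → (∀ j i, HomE r (A j i)) →
    (∀ z ∈ Z, z ≠ 0 → Module.finrank ℂ (LinearMap.ker (Matrix.mulVecLin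
      (Matrix.of fun (j : ν) (i : Fin w) => eval z (A j i)))) ≤ m') →
    ∃ u : Fin w → ℂ, ∀ z ∈ Z, z ≠ 0 → ∃ j, ∑ i, eval z (A j i) * u i ≠ 0

/-- General points of the vector space. -/
def ST_GENPT : Prop :=
  ∀ (D : VD) (m r : ℕ), TD D m → 1 ≤ r → DimLE r D.Z →
    (∀ h : D.G, h ≠ 1 →
      Module.finrank ℂ (LinearMap.ker (D.ρ h - LinearMap.id)) + 2 * r ≤ D.w) →
    ∃ A : Set (Fin D.w → ℂ), ZClosed A ∧ (∀ a : ℂ, ∀ u ∈ A, a • u ∈ A) ∧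
      (∀ g : D.G, ∀ u ∈ A, D.ρ g u ∈ A) ∧ (∃ u, u ∉ A) ∧ ∀ u, u ∉ A → GenP D u

/-- The existence theorem for `2 ^ k` components permuted transitively by a finite group. -/
def ST_FINALT : Prop :=
  ∀ (n k r : ℕ) (ι : Type) [Finite ι] (Z : ι → Set (Fin n → ℂ)), IsComponents Z →
    SmoothCone (⋃ i, Z i) → 1 ≤ r → DimLE r (⋃ i, Z i) → 1 ≤ k → Nat.card ι = 2 ^ k →
    ∀ G : Subgroup ((Fin n → ℂ) ≃ₗ[ℂ] (Fin n → ℂ)), Finite G →
    (∀ g ∈ G, g '' (⋃ i, Z i) = ⋃ i, Z i) →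
    (∀ i j, ∃ g ∈ G, g '' Z i = Z j) →
    (∀ g ∈ G, g ≠ 1 → (∃ e : ℕ, g ^ (2 ^ e) = 1) →
      Module.finrank ℂ (LinearMap.ker ((g : (Fin n → ℂ) →ₗ[ℂ] (Fin n → ℂ)) - LinearMap.id)) +
        2 * r ≤ n) →
    ∃ (N d : ℕ) (X : Set (Fin (N + 1) → ℂ)) (H : Set (Coef N d)),
      IsProjManifold n N X ∧ IsFamily X H ∧ IsMinimalComponent X H ∧
        Isotrivial X H (⋃ i, Z i)

end Pool.Agent.Helper87.PG
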