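import Pool.Agent.Helper87.PG.All
import Pool.Agent.Helper87.PG.Stmts2
import Pool.Agent.Helper84.PG.TANDG
import Pool.Agent.Helper49.PG.GENPT
import Pool.Agent.Helper84.PG.FINALT

/-!
The existence theorem on isotrivial VMRT for a nonsingular model variety with `2 ^ k` components
permuted transitively by a finite group (`MP_39dd1a_ag`, hand-in `TwoGroups`).
-/

set_option autoImplicit false

namespace Pool.Agent.Helper87.PG

open MvPolynomial Pool.Agent.Helper48.VMRT Pool.Agent.Helper87.VM Pool.Agent.Helper87.TC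

theorem all_FINALT : ST_FINALT := by
  have hTP := VM.st_TP VM.all_QUO
  have hXEX := VM.st_XEX (VM.st_SEG VM.st_PROD) hTP VM.all_QUO
  have hCIRR := VM.st_CIRR (VM.st_GAL (VM.st_GALA VM.st_HEN))
  have hCEX := VM.st_CEX hCIRR (VM.st_CUP VM.st_CDIST) (VM.st_CLO VM.st_HEN hCIRR VM.st_LB)
    (VM.st_CFREE VM.st_CDIST)
  have hYIR := VM.st_YIR VM.st_YFIB
  have hYPM := VM.st_YPM VM.st_YCL hYIR VM.st_YUP (VM.st_YLO hYIR VM.st_LB)
  exact st_FINALT st_SYL1 (st_GENPT TC.st_ELIM TC.st_DIMT st_TANDG) all_MAIN2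
    hCEX (VM.st_FDEX VM.st_FLOC) hYPM VM.st_YACT hXEX

end Pool.Agent.Helper87.PG
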