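import Pool.Agent.Helper87.TC.Lib

/-!
Definitions for the existence theorem on isotrivial VMRT for a model variety consisting of
`2 ^ k` points (`MP_39dd1a_ag`, hand-in `FiniteModels`).  The group is now an arbitrary finite
group of order a power of `2`, acting freely outside a closed set.
-/

set_option autoImplicit false

namespace Pool.Agent.Helper87.PG

open MvPolynomial Pool.Agent.Helper48.VMRT Pool.Agent.Helper87.VM Pool.Agent.Helper87.TC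

/-! ### A. resolved quotients by groups of order a power of `2` -/

/-- The linear map commutes, or anticommutes, with the involution `(p, q) ↦ (p, -q)`. -/
def MB {κα κβ : Type} (γ : (κα ⊕ κβ → ℂ) →ₗ[ℂ] (κα ⊕ κβ → ℂ)) : Prop :=
  (∀ y, γ (sg y) = sg (γ y)) ∨ ∀ y, γ (sg y) = -sg (γ y)

/-- `E`, homogeneous of degree `m`, maps `ℙY` minus `ℙD` onto `ℙX` minus `ℙDX`; two points with the
same image are in one orbit of the group `G` acting by `σ`, and `ℙX` is a projective manifold of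
dimension `n` on which `G'` acts by `σ'`. -/
structure Res {κ μ : Type} [Fintype κ] [Fintype μ] {G G' : Type} [Group G] [Group G'] (n m : ℕ)
    (Y D : Set (κ → ℂ)) (σ : G → ((κ → ℂ) →ₗ[ℂ] (κ → ℂ))) (E : μ → MvPolynomial κ ℂ)
    (X DX : Set (μ → ℂ)) (π : G →* G') (σ' : G' → ((μ → ℂ) →ₗ[ℂ] (μ → ℂ))) : Prop where
  hom : ∀ i, HomE m (E i)
  pm : PM n X
  img : ∀ y ∈ Y, ev E y ∈ X
  dcl : ZClosed DX
  dcone : ∀ a : ℂ, ∀ x ∈ DX, a • x ∈ DX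
  on : ∀ y ∈ D, ev E y ∈ DX
  off : ∀ y ∈ Y, y ∉ D → ev E y ∉ DX
  surj : ∀ x ∈ X, x ∉ DX → ∃ y ∈ Y, y ∉ D ∧ x = ev E y
  sep : ∀ y ∈ Y, y ∉ D → ∀ y' ∈ Y, y' ∉ D → ∀ a : ℂ, ev E y' = a • ev E y →
    ∃ (g : G) (c : ℂ), y' = c • σ g y
  equi : ∀ g : G, ∃ ε : ℂ, ε ≠ 0 ∧ ∀ y, ev E (σ g y) = ε • σ' (π g) (ev E y)
  imm : ∀ y ∈ Y, y ∉ D → ∀ v, dev E y v = 0 → v = 0
  tan : ∀ y ∈ Y, y ∉ D → ∀ v ∈ tsp X (ev E y), ∃ u ∈ tsp Y y, v = dev E y u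
  lift : ∀ (e : ℕ) (c : μ → Polynomial ℂ), Mor e c → (∀ s t : ℂ, hevv e c s t ∈ X) →
    (∀ s t : ℂ, (s, t) ≠ (0, 0) → hevv e c s t ∉ DX) →
    ∃ (e' : ℕ) (y : κ → Polynomial ℂ), e = m * e' ∧ Mor e' y ∧
      (∀ s t : ℂ, hevv e' y s t ∈ Y) ∧
      (∀ s t : ℂ, (s, t) ≠ (0, 0) → hevv e' y s t ∉ D) ∧
      ∀ s t : ℂ, hevv e c s t = ev E (hevv e' y s t)
  sets : ∀ S : Set (κ → ℂ), ZClosed S → (∀ a : ℂ, ∀ y ∈ S, a • y ∈ S) → S ⊆ Y →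
    (∀ g : G, ∀ y ∈ S, σ g y ∈ S) →
    ∃ S' : Set (μ → ℂ), ZClosed S' ∧ (∀ a : ℂ, ∀ x ∈ S', a • x ∈ S') ∧ S' ⊆ X ∧
      (∀ g' : G', ∀ x ∈ S', σ' g' x ∈ S') ∧ ∀ y ∈ Y, y ∉ D → (ev E y ∈ S' ↔ y ∈ S)

/-- The input of a resolved quotient by the group `G`, acting on `ℙY`, freely outside `ℙD`. -/
structure Inp {κ G : Type} [Fintype κ] [Group G] (n : ℕ) (Y D : Set (κ → ℂ))
    (σ : G → ((κ → ℂ) →ₗ[ℂ] (κ → ℂ))) : Prop where
  pm : PM n Y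
  one : ∃ a : ℂ, a ≠ 0 ∧ σ 1 = a • LinearMap.id
  mul : ∀ g h : G, ∃ a : ℂ, a ≠ 0 ∧ σ (g * h) = a • (σ g ∘ₗ σ h)
  act : ∀ g : G, ∀ y ∈ Y, σ g y ∈ Y
  dcl : ZClosed D
  dcone : ∀ a : ℂ, ∀ y ∈ D, a • y ∈ D
  dact : ∀ g : G, ∀ y ∈ D, σ g y ∈ D
  free : ∀ y ∈ Y, y ∉ D → ∀ g : G, g ≠ 1 → ∀ c : ℂ, σ g y ≠ c • y
  exi : ∃ y ∈ Y, y ∉ D

/-! ### B. the data of the construction -/

/-- The points of the blow-up fixed by an involution in the group. -/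
def FX (D : VD) : Set (Option (Fin D.w) × D.ν → ℂ) :=
  {y | ∃ τ : D.G, τ ≠ 1 ∧ τ * τ = 1 ∧ (D.ρY τ y = y ∨ D.ρY τ y = -y)}

/-- The group has order `2 ^ m > 1` and acts effectively. -/
structure TD (D : VD) (m : ℕ) : Prop where
  good : D.Good
  fin : Finite D.ι
  pos : 1 ≤ m
  card : Nat.card D.G = 2 ^ m
  eff : ∀ h : D.G, h ≠ 1 → ∃ x, D.ρ h x ≠ x

/-- The resolved quotient of the blow-up. -/
structure TR (D : VD) (m : ℕ) (N : ℕ)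
    (E : Fin (N + 1) → MvPolynomial (Option (Fin D.w) × D.ν) ℂ)
    (X DX : Set (Fin (N + 1) → ℂ)) : Prop where
  td : TD D m
  res : Res D.w (4 ^ m) D.Y (FX D) (fun g : D.G => D.ρY g) E X DX (1 : D.G →* Unit)
    (fun _ => LinearMap.id)

/-- The family of (parametrized) curves. -/
def H2 (D : VD) (m N : ℕ) (E : Fin (N + 1) → MvPolynomial (Option (Fin D.w) × D.ν) ℂ)
    (DX : Set (Fin (N + 1) → ℂ)) : Set (Coef N (4 ^ m * D.a)) :=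
  {c | ∃ p q, LP D p q ∧
    (∀ s t : ℂ, (s * p none + t * q none) ^ 4 ^ m • pt c s t =
      ev E (D.gr (s • p + t • q))) ∧
    ∀ s t : ℂ, (s, t) ≠ (0, 0) → pt c s t ∉ DX}

/-- `u` is moved by the involutions. -/
def NF (D : VD) (u : Fin D.w → ℂ) : Prop := ∀ τ : D.G, τ ≠ 1 → τ * τ = 1 → D.ρ τ u ≠ u

/-- The lines through `u` with direction in `Z` avoid the fixed points of involutions. -/
structure GenL (D : VD) (u : Fin D.w → ℂ) : Prop where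
  tan : ∀ z ∈ D.Z, z ≠ 0 → u ∉ TT D.F z
  aff : ∀ τ : D.G, τ ≠ 1 → τ * τ = 1 → ∀ z ∈ D.Z, D.ρ τ (u + z) ≠ u + z
  inf : ∀ τ : D.G, τ ≠ 1 → τ * τ = 1 → ∀ z ∈ D.Z, z ≠ 0 → (D.ρ τ z = z ∨ D.ρ τ z = -z) →
    D.ρ τ u - u ∉ TT D.F z

/-- `u` is general: moreover it is moved by the group in directions outside `Z`. -/
structure GenP (D : VD) (u : Fin D.w → ℂ) : Prop where
  gl : GenL D u
  mov : ∀ h : D.G, h ≠ 1 → D.ρ h u - u ∉ D.Z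

/-! ### C. points -/

/-- The line spanned by `z`. -/
def ln {n : ℕ} (z : Fin n → ℂ) : Set (Fin n → ℂ) := {x | ∃ a : ℂ, x = a • z}

/-- The vectors `z i` are nonzero and pairwise not proportional. -/
structure Pts {n : ℕ} {ι : Type} (z : ι → Fin n → ℂ) : Prop where
  ne : ∀ i, z i ≠ 0
  dist : ∀ i j, i ≠ j → ∀ a : ℂ, z i ≠ a • z j

end Pool.Agent.Helper87.PG
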