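import Pool.Agent.Helper87.PG.Defs

/-!
Statements of the modules of the existence theorem on isotrivial VMRT for a model variety
consisting of `2 ^ k` points (`MP_39dd1a_ag`, hand-in `FiniteModels`).
-/

set_option autoImplicit false

namespace Pool.Agent.Helper87.PG

open MvPolynomial Pool.Agent.Helper48.VMRT Pool.Agent.Helper87.VM Pool.Agent.Helper87.TC

/-! ### A. towers -/

/-- The functor on block diagonal and block antidiagonal linear maps. -/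
def ST_EQG : Prop :=
  ∀ (κα κβ : Type) [Fintype κα] [Fintype κβ],
    ∃ T : ((κα ⊕ κβ → ℂ) →ₗ[ℂ] (κα ⊕ κβ → ℂ)) → ((KK κα κβ → ℂ) →ₗ[ℂ] (KK κα κβ → ℂ)),
      (∀ γ, MB γ → ∀ y, T γ (ev Psi y) = ev Psi (γ y)) ∧
      (∀ γ γ', MB γ → MB γ' → T (γ ∘ₗ γ') = T γ ∘ₗ T γ') ∧
      (∀ (a : ℂ) γ, T (a • γ) = a ^ 4 • T γ) ∧ T LinearMap.id = LinearMap.id ∧
      (∀ γ, (∀ y, γ y = sg y) → T γ = -LinearMap.id) ∧
      ∀ γ, MB γ → ∀ w ∈ Bd κα κβ, T γ w ∈ Bd κα κβ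

/-- One step: the resolved quotient by a central involution. -/
def ST_STEP : Prop :=
  ∀ (m : ℕ) (κ G : Type) [Fintype κ] [Group G] (n : ℕ) (Y D : Set (κ → ℂ))
    (σ : G → ((κ → ℂ) →ₗ[ℂ] (κ → ℂ))), Nat.card G = 2 ^ (m + 1) → Inp n Y D σ →
    ∃ (μ G' : Type) (_ : Fintype μ) (_ : Group G') (π : G →* G') (P : μ → MvPolynomial κ ℂ)
      (Y' D' : Set (μ → ℂ)) (σ' : G' → ((μ → ℂ) →ₗ[ℂ] (μ → ℂ))),
      Nat.card G' = 2 ^ m ∧ Function.Surjective π ∧ Res n 4 Y D σ P Y' D' π σ' ∧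
        Inp n Y' D' σ'

/-- Composition of resolved quotients. -/
def ST_RCOMP : Prop :=
  ∀ (κ μ ν G G' G'' : Type) [Fintype κ] [Fintype μ] [Fintype ν] [Group G] [Group G'] [Group G'']
    (n m₁ m₂ : ℕ) (Y D : Set (κ → ℂ)) (σ : G → ((κ → ℂ) →ₗ[ℂ] (κ → ℂ)))
    (E₁ : μ → MvPolynomial κ ℂ) (Y₁ D₁ : Set (μ → ℂ)) (π : G →* G')
    (σ₁ : G' → ((μ → ℂ) →ₗ[ℂ] (μ → ℂ))) (E₂ : ν → MvPolynomial μ ℂ) (X DX : Set (ν → ℂ))
    (π' : G' →* G'') (σ₂ : G'' → ((ν → ℂ) →ₗ[ℂ] (ν → ℂ))), Function.Surjective π →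
    Inp n Y D σ → Res n m₁ Y D σ E₁ Y₁ D₁ π σ₁ → Res n m₂ Y₁ D₁ σ₁ E₂ X DX π' σ₂ →
    Res n (m₂ * m₁) Y D σ (fun i => aeval E₁ (E₂ i)) X DX (π'.comp π) σ₂

/-- The resolved quotient by a group of order `2 ^ m`. -/
def ST_TOWER : Prop :=
  ∀ (m : ℕ) (κ G : Type) [Fintype κ] [Group G] (n : ℕ) (Y D : Set (κ → ℂ))
    (σ : G → ((κ → ℂ) →ₗ[ℂ] (κ → ℂ))), Nat.card G = 2 ^ m → Inp n Y D σ →
    ∃ (N : ℕ) (E : Fin (N + 1) → MvPolynomial κ ℂ) (X DX : Set (Fin (N + 1) → ℂ)),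
      Res n (4 ^ m) Y D σ E X DX (1 : G →* Unit) (fun _ => LinearMap.id)

/-! ### B. the blow-up -/

/-- The input of the tower for the blow-up. -/
def ST_INP0 : Prop :=
  ∀ (D : VD) (m : ℕ), TD D m → Inp D.w D.Y (FX D) (fun g : D.G => D.ρY g)

/-- The blow-up has a resolved quotient. -/
def ST_TREX : Prop :=
  ∀ (D : VD) (m : ℕ), TD D m → ∃ (N : ℕ)
    (E : Fin (N + 1) → MvPolynomial (Option (Fin D.w) × D.ν) ℂ) (X DX : Set (Fin (N + 1) → ℂ)),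
    TR D m N E X DX

/-- Lines in general position avoid the fixed points. -/
def ST_LINE : Prop :=
  ∀ (D : VD) (m : ℕ), TD D m → ∀ u, GenL D u →
    ∀ z ∈ D.Z, z ≠ 0 → ∀ y : Option (Fin D.w) × D.ν → Polynomial ℂ, Mor D.a y →
    (∀ s t : ℂ, s • hevv D.a y s t = D.gr (s • ov 1 u + t • ov 0 z)) →
    ∀ s t : ℂ, (s, t) ≠ (0, 0) → hevv D.a y s t ∉ FX D

/-- General points of the vector space, if the model variety is finite. -/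
def ST_GENP : Prop :=
  ∀ (D : VD) (m : ℕ), TD D m → (∀ i, ∃ z, z ≠ 0 ∧ D.Zi i = ln z) →
    (∀ h : D.G, h ≠ 1 →
      Module.finrank ℂ (LinearMap.ker (D.ρ h - LinearMap.id)) + 2 ≤ D.w) →
    ∃ A : Set (Fin D.w → ℂ), ZClosed A ∧ (∀ a : ℂ, ∀ u ∈ A, a • u ∈ A) ∧
      (∀ g : D.G, ∀ u ∈ A, D.ρ g u ∈ A) ∧ (∃ u, u ∉ A) ∧ ∀ u, u ∉ A → GenP D u

/-! ### C. the curves in the resolved quotient -/

/-- Data for the following statements: a member of the family is the image of the proper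
transform of a line. -/
def ST_MEM2 : Prop :=
  ∀ (D : VD) (m N : ℕ)
    (E : Fin (N + 1) → MvPolynomial (Option (Fin D.w) × D.ν) ℂ) (X DX : Set (Fin (N + 1) → ℂ)),
    TR D m N E X DX → ∀ p q, LP D p q →
    ∀ c : Coef N (4 ^ m * D.a),
    (∀ s t : ℂ, (s * p none + t * q none) ^ 4 ^ m • pt c s t =
      ev E (D.gr (s • p + t • q))) →
    (∀ s t : ℂ, (s, t) ≠ (0, 0) → pt c s t ∉ DX) →
    ∃ (y : Option (Fin D.w) × D.ν → Polynomial ℂ) (η : D.ν → Polynomial ℂ),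
      Mor D.a y ∧ Mor (D.a - 1) η ∧
      (∀ s t : ℂ, hevv D.a y s t = seg (s • p + t • q) (hevv (D.a - 1) η s t)) ∧
      (∀ s t : ℂ, hevv D.a y s t ∈ D.Y) ∧
      (∀ s t : ℂ, (s * p none + t * q none) • hevv (D.a - 1) η s t =
        ev D.F (s • p + t • q)) ∧
      (∀ s t : ℂ, pt c s t = ev E (hevv D.a y s t)) ∧
      ∀ s t : ℂ, (s, t) ≠ (0, 0) → hevv D.a y s t ∉ FX D

/-- The group acts on the data of a member of the family. -/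
def ST_HTR2 : Prop :=
  ∀ (D : VD) (m N : ℕ)
    (E : Fin (N + 1) → MvPolynomial (Option (Fin D.w) × D.ν) ℂ) (X DX : Set (Fin (N + 1) → ℂ)),
    TR D m N E X DX → ∀ (h : D.G) (p q : Option (Fin D.w) → ℂ), LP D p q →
    ∃ lam : ℂ, lam ≠ 0 ∧ LP D (lam • oext D.ρ h p) (lam • oext D.ρ h q) ∧
      ∀ c : Coef N (4 ^ m * D.a),
      (∀ s t : ℂ, (s * p none + t * q none) ^ 4 ^ m • pt c s t =
        ev E (D.gr (s • p + t • q))) →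
      ∀ s t : ℂ, (s * (lam • oext D.ρ h p) none + t * (lam • oext D.ρ h q) none) ^ 4 ^ m •
        pt c s t = ev E (D.gr (s • (lam • oext D.ρ h p) + t • (lam • oext D.ρ h q)))

/-- The members of the family are curves. -/
def ST_HCUR2 : Prop :=
  ∀ (D : VD) (m N : ℕ)
    (E : Fin (N + 1) → MvPolynomial (Option (Fin D.w) × D.ν) ℂ) (X DX : Set (Fin (N + 1) → ℂ)),
    TR D m N E X DX → ∀ c ∈ H2 D m N E DX, IsCurve X c

/-- Existence of members through the points over a vector in general position. -/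
def ST_THR2 : Prop :=
  ∀ (D : VD) (m N : ℕ)
    (E : Fin (N + 1) → MvPolynomial (Option (Fin D.w) × D.ν) ℂ) (X DX : Set (Fin (N + 1) → ℂ)),
    TR D m N E X DX → ∀ u, GenL D u →
    ∀ c₀ : ℂ, c₀ ≠ 0 →
    ∃ Φ : Fin (N + 1) × Fin (4 ^ m * D.a + 1) → MvPolynomial (Fin D.w) ℂ,
      ∀ z ∈ D.Z, (∀ s t : ℂ, s ^ 4 ^ m •
          pt (fun i => eval z (Φ i) : Coef N (4 ^ m * D.a)) s t =
            ev E (c₀ • D.gr (s • ov 1 u + t • ov 0 z))) ∧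
        pt (fun i => eval z (Φ i) : Coef N (4 ^ m * D.a)) 1 0 =
          ev E (c₀ • D.gr (ov 1 u)) ∧
        (∀ a s t : ℂ, pt (fun i => eval (a • z) (Φ i) : Coef N (4 ^ m * D.a)) s t =
          pt (fun i => eval z (Φ i) : Coef N (4 ^ m * D.a)) s (a * t)) ∧
        (z ≠ 0 → (fun i => eval z (Φ i)) ∈ H2 D m N E DX)

/-- The family is irreducible. -/
def ST_HIRR2 : Prop :=
  ∀ (D : VD) (m N : ℕ)
    (E : Fin (N + 1) → MvPolynomial (Option (Fin D.w) × D.ν) ℂ) (X DX : Set (Fin (N + 1) → ℂ)),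
    TR D m N E X DX → (∃ u, GenL D u) →
    (vanishingIdeal ℂ (H2 D m N E DX)).IsPrime

/-- Classification of the curves of degree `4 ^ m * a` outside the boundary. -/
def ST_CURV2 : Prop :=
  ∀ (D : VD) (m N : ℕ)
    (E : Fin (N + 1) → MvPolynomial (Option (Fin D.w) × D.ν) ℂ) (X DX : Set (Fin (N + 1) → ℂ)),
    TR D m N E X DX →
    ∃ L : Set (Fin (N + 1) → ℂ), ZClosed L ∧ (∀ a : ℂ, ∀ x ∈ L, a • x ∈ L) ∧ L.Nonempty ∧
      (∀ y ∈ D.Y, y ∉ FX D → (ev E y ∈ L ↔ ∀ j, y (none, j) = 0)) ∧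
      ∀ c : Coef N (4 ^ m * D.a), (∀ s t : ℂ, pt c s t ∈ X) →
        (∀ s t : ℂ, (s, t) ≠ (0, 0) → pt c s t ∉ DX) → (∃ s t : ℂ, pt c s t ∉ L) →
        c ∈ H2 D m N E DX

/-- The family is locally closed, and open in the space of all curves. -/
def ST_HLC2 : Prop :=
  ∀ (D : VD) (m N : ℕ)
    (E : Fin (N + 1) → MvPolynomial (Option (Fin D.w) × D.ν) ℂ) (X DX : Set (Fin (N + 1) → ℂ)),
    TR D m N E X DX →
    (∃ A B : Set (Coef N (4 ^ m * D.a)), ZClosed A ∧ ZClosed B ∧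
      H2 D m N E DX = A \ B) ∧
    ∃ C : Set (Coef N (4 ^ m * D.a)), ZClosed C ∧
      ∀ c, IsCurve X c → (c ∈ H2 D m N E DX ↔ c ∉ C)

/-- General points of the resolved quotient. -/
def ST_AX : Prop :=
  ∀ (D : VD) (m N : ℕ)
    (E : Fin (N + 1) → MvPolynomial (Option (Fin D.w) × D.ν) ℂ) (X DX : Set (Fin (N + 1) → ℂ)),
    TR D m N E X DX → ∀ A : Set (Fin D.w → ℂ), ZClosed A →
    (∀ a : ℂ, ∀ u ∈ A, a • u ∈ A) → (∀ g : D.G, ∀ u ∈ A, D.ρ g u ∈ A) → (∃ u, u ∉ A) →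
    ∃ A' : Set (Fin (N + 1) → ℂ), ZClosed A' ∧ (∃ v ∈ X, v ≠ 0 ∧ v ∉ A') ∧
      ∀ v ∈ X, v ≠ 0 → v ∉ A' →
        ∃ (c₀ : ℂ) (u : Fin D.w → ℂ), c₀ ≠ 0 ∧ u ∉ A ∧ v = ev E (c₀ • D.gr (ov 1 u))

/-- Uniqueness: the members of the family through a general point. -/
def ST_UNI2 : Prop :=
  ∀ (D : VD) (m N : ℕ)
    (E : Fin (N + 1) → MvPolynomial (Option (Fin D.w) × D.ν) ℂ) (X DX : Set (Fin (N + 1) → ℂ)),
    TR D m N E X DX → ∀ (u : Fin D.w → ℂ) (c₀ : ℂ), c₀ ≠ 0 → u ≠ 0 → NF D u →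
    ∀ c ∈ H2 D m N E DX, ∀ s₀ t₀ : ℂ, (s₀, t₀) ≠ (0, 0) →
    pt c s₀ t₀ = ev E (c₀ • D.gr (ov 1 u)) →
    ∃ z ∈ D.Z, z ≠ 0 ∧ ∃ α β γ δ : ℂ, α * δ - β * γ ≠ 0 ∧
      α * s₀ + β * t₀ = 1 ∧ γ * s₀ + δ * t₀ = 0 ∧ ∀ s t : ℂ,
        (α * s + β * t) ^ 4 ^ m • pt c s t =
          ev E (c₀ • D.gr ((α * s + β * t) • ov 1 u + (γ * s + δ * t) • ov 0 z))

/-- The members of the family through a general point are nonsingular there. -/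
def ST_SM2 : Prop :=
  ∀ (D : VD) (m N : ℕ)
    (E : Fin (N + 1) → MvPolynomial (Option (Fin D.w) × D.ν) ℂ) (X DX : Set (Fin (N + 1) → ℂ)),
    TR D m N E X DX → ∀ u, GenP D u → ∀ c₀ : ℂ, c₀ ≠ 0 →
    ∀ z ∈ D.Z, z ≠ 0 → ∀ c : Coef N (4 ^ m * D.a),
    (∀ s t : ℂ, s ^ 4 ^ m • pt c s t = ev E (c₀ • D.gr (s • ov 1 u + t • ov 0 z))) →
    SmoothAt c 1 0 ∧ (∃ a : ℂ, a ≠ 0 ∧ dpt c 1 0 = dTh2 D E c₀ u (a • z)) ∧
      ∃ a : ℂ, dps c 1 0 = a • ev E (c₀ • D.gr (ov 1 u))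

/-- The tangents of the family at a general point. -/
def ST_VT2 : Prop :=
  ∀ (D : VD) (m N : ℕ)
    (E : Fin (N + 1) → MvPolynomial (Option (Fin D.w) × D.ν) ℂ) (X DX : Set (Fin (N + 1) → ℂ)),
    TR D m N E X DX → ∀ u, GenP D u → ∀ c₀ : ℂ, c₀ ≠ 0 →
    tangents (H2 D m N E DX) (ev E (c₀ • D.gr (ov 1 u))) =
      {u' | ∃ z ∈ D.Z, ∃ a : ℂ, u' = dTh2 D E c₀ u z + a • ev E (c₀ • D.gr (ov 1 u))}

/-- The tangent space of `X` at a general point. -/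
def ST_VTS2 : Prop :=
  ∀ (D : VD) (m N : ℕ)
    (E : Fin (N + 1) → MvPolynomial (Option (Fin D.w) × D.ν) ℂ) (X DX : Set (Fin (N + 1) → ℂ)),
    TR D m N E X DX → ∀ (u : Fin D.w → ℂ) (c₀ : ℂ), c₀ ≠ 0 → u ≠ 0 → NF D u →
    ∃ f : (Fin D.w → ℂ) →ₗ[ℂ] (Fin (N + 1) → ℂ), Function.Injective f ∧
      (∀ z, f z = dTh2 D E c₀ u z) ∧
      LinearMap.range f ⊓ Submodule.span ℂ {ev E (c₀ • D.gr (ov 1 u))} = ⊥ ∧
      LinearMap.range f ⊔ Submodule.span ℂ {ev E (c₀ • D.gr (ov 1 u))} =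
        tsp X (ev E (c₀ • D.gr (ov 1 u)))

/-- Isotriviality at the general point. -/
def ST_ISO2 : Prop :=
  ∀ (D : VD) (m N : ℕ)
    (E : Fin (N + 1) → MvPolynomial (Option (Fin D.w) × D.ν) ℂ) (X DX : Set (Fin (N + 1) → ℂ)),
    TR D m N E X DX → ∀ u, GenP D u → ∀ c₀ : ℂ, c₀ ≠ 0 →
    IsotrivialAt X (H2 D m N E DX) D.Z (ev E (c₀ • D.gr (ov 1 u)))

/-- The existence theorem. -/
def ST_MAIN2 : Prop :=
  ∀ (D : VD) (m : ℕ), TD D m →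
    (∃ A : Set (Fin D.w → ℂ), ZClosed A ∧ (∀ a : ℂ, ∀ u ∈ A, a • u ∈ A) ∧
      (∀ g : D.G, ∀ u ∈ A, D.ρ g u ∈ A) ∧ (∃ u, u ∉ A) ∧ ∀ u, u ∉ A → GenP D u) →
    ∃ (N d : ℕ) (X : Set (Fin (N + 1) → ℂ)) (H : Set (Coef N d)),
      IsProjManifold D.w N X ∧ IsFamily X H ∧ IsMinimalComponent X H ∧ Isotrivial X H D.Z

/-! ### D. finite sets of points -/

/-- The lines are the components. -/
def ST_LCO : Prop :=
  ∀ (n : ℕ) (ι : Type) [Finite ι] (z : ι → Fin n → ℂ), Pts z →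
    IsComponents (fun i => ln (z i))

/-- A finite set of points is nonsingular. -/
def ST_LSM : Prop :=
  ∀ (n : ℕ) (ι : Type) [Finite ι] (z : ι → Fin n → ℂ), Pts z → SmoothCone (⋃ i, ln (z i))

/-- A Sylow subgroup of a transitive group of degree `2 ^ k` is transitive. -/
def ST_SYL1 : Prop :=
  ∀ (S ι : Type) [Group S] [Finite S] [Finite ι] (k : ℕ) (π : S →* Equiv.Perm ι),
    Nat.card ι = 2 ^ k → (∀ i j, ∃ s, π s i = j) →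
    ∃ (P : Subgroup S) (m : ℕ), Nat.card P = 2 ^ m ∧ ∀ i j, ∃ s ∈ P, π s i = j

/-- The fixed vectors of an automorphism of finite order and determinant `1`. -/
def ST_FIXD : Prop :=
  ∀ (n : ℕ) (g : (Fin n → ℂ) →ₗ[ℂ] (Fin n → ℂ)) (r : ℕ), 0 < r → g ^ r = 1 →
    LinearMap.det g = 1 → g ≠ 1 →
    Module.finrank ℂ (LinearMap.ker (g - LinearMap.id)) + 2 ≤ n

/-- A transitive group of order a power of `2` of linear automorphisms of determinant `1`. -/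
def ST_SYL2 : Prop :=
  ∀ (n k : ℕ) (ι : Type) [Finite ι] (z : ι → Fin n → ℂ), Pts z → 1 ≤ k →
    Nat.card ι = 2 ^ k →
    (∀ i j, ∃ a : (Fin n → ℂ) ≃ₗ[ℂ] (Fin n → ℂ),
      a '' (⋃ i, ln (z i)) = (⋃ i, ln (z i)) ∧ a '' ln (z i) = ln (z j)) →
    ∃ (G : Subgroup ((Fin n → ℂ) ≃ₗ[ℂ] (Fin n → ℂ))) (m : ℕ), 1 ≤ m ∧ Nat.card G = 2 ^ m ∧
      (∀ g ∈ G, LinearMap.det (g : (Fin n → ℂ) →ₗ[ℂ] (Fin n → ℂ)) = 1) ∧
      (∀ g ∈ G, ∀ x ∈ ⋃ i, ln (z i), g x ∈ ⋃ i, ln (z i)) ∧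
      ∀ i j, ∃ g ∈ G, (fun x => g x) '' ln (z i) = ln (z j)

/-- The final theorem. -/
def ST_FINALG : Prop :=
  ∀ (n k : ℕ) (ι : Type) [Finite ι] (z : ι → Fin n → ℂ), Pts z → 1 ≤ k →
    Nat.card ι = 2 ^ k →
    (∀ i j, ∃ a : (Fin n → ℂ) ≃ₗ[ℂ] (Fin n → ℂ),
      a '' (⋃ i, ln (z i)) = (⋃ i, ln (z i)) ∧ a '' ln (z i) = ln (z j)) →
    ∃ (N d : ℕ) (X : Set (Fin (N + 1) → ℂ)) (H : Set (Coef N d)),
      IsProjManifold n N X ∧ IsFamily X H ∧ IsMinimalComponent X H ∧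
        Isotrivial X H (⋃ i, ln (z i))

end Pool.Agent.Helper87.PG
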